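import Pool.Agent.D0H15.SK.Stm

/-!
# Project KG: many fields of degree `n` with large class groups (MP_176ace_nt slot 3)

THEOREM (final). There is `n₀` such that for all `n ≥ n₀`, all number fields `K`, all `m` prime to `n` with
`(ℤ/m)^r ⊂ Cl(K)` and all `R` there are, for large `X`, at least `X ^ (1/2 + 4/(3n) - 16 (log n)^2/n^2)`
`S_n`-extensions `L/K` of degree `n` with `|disc L| ≤ X`, `(ℤ/m)^r ⊂ Cl(L)` and `(ℤ/n)^R ⊂ Cl(L)`.

(Engine: `Pool.Agent.D0H64.WS.expo'`; the polynomials are `≡ x^n + Q` modulo `Q^2`, `Q = q_1 ⋯ q_N`, so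
`(q_j, θ)^n = (q_j)` in `L = K(θ)`; the classes of these ideals generate a large group because `L/K` has group `S_n`.)

Modules: 1 ROOT, 3 CLS, 4 BASE, 5 UNR.  Prove `theorem t_XXX : S_XXX` in `Pool/Agent/D0H<your number>/KG/XXX.lean`.
EIS (2), DAT (6) and the assembly: helper34.
-/

set_option autoImplicit false

open Polynomial NumberField nonZeroDivisors

namespace Pool.Agent.D0H34.KG

open Pool.Agent.D0H15.SK

/-- The class group contains `(ℤ/m)^R`. -/
def HasCl (F : Type) [Field F] [NumberField F] (m R : ℕ) : Prop :=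
  ∃ f : Multiplicative (Fin R → ZMod m) →* ClassGroup (𝓞 F), Function.Injective f

/-- **1 ROOT** (30 min).  `L/K` of degree `n ≥ 4` with group `S_n`, `y ∈ L`, `y^ℓ ∈ K`, `ℓ` prime: then `y ∈ K`.

PROOF. `φ_1, …, φ_n : L →ₐ[K] Kb` the embeddings (`n` of them: `AlgHom.card`), `y_i = φ_i(y)`, `y_i^ℓ = c`.  If `y ∉ K` the `y_i` are not all
equal (`y ∈ K` iff all conjugates equal, e.g. `IsGalois`/`minpoly` roots; or: all `φ_i` agree on `K(y)`, so `[K(y):K] = 1`).
(i) They are then all different: if `y_1 = y_2 ≠ y_3`, take (by `Sym L`) `σ` in the Galois group of `Kb` with `σ φ_1 = φ_1`, `σ φ_2 = φ_3`,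
`σ φ_3 = φ_2`; then `y_1 = σ y_1 = σ y_2 = y_3`.  (ii) Let `σ` fix `φ_1, φ_2` and swap `φ_3, φ_4`.  `ζ = y_2 / y_1 ≠ 1`, `ζ^ℓ = 1`, so `ζ` is a primitive
`ℓ`-th root of unity, fixed by `σ`; `(y_3/y_1)^ℓ = 1`, so `y_3 / y_1` is a power of `ζ` (`IsPrimitiveRoot.eq_pow_of_pow_eq_one`), so fixed by `σ`, so
`y_3 = σ y_3 = y_4`, a contradiction.  (`c = 0` is trivial.) -/
def S_ROOT : Prop := ∀ (K : Type) [Field K] [NumberField K] (L : IntermediateField K (AlgebraicClosure K))
  (n ℓ : ℕ) (y : AlgebraicClosure K), 4 ≤ n → Module.finrank K L = n → Sym L → ℓ.Prime → y ∈ L →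
  y ^ ℓ ∈ Set.range (algebraMap K (AlgebraicClosure K)) → y ∈ Set.range (algebraMap K (AlgebraicClosure K))

/-- **3 CLS** (30 min; variant of `Pool.Agent.W930.CG.cls` without the condition on roots of unity, one more unit).

PROOF. Use `Pool.Agent.W240.CG.grp : Pool.Agent.W289.CG.TaskGrp` with `r = Units.rank F + 1`.  Copy the proof of `cls`
(`Pool/Agent/W930/CG/Cls.lean`); instead of `hU` use: every unit `u` is `ζ^a ∏ fundSystem_i^(n_i)` with `ζ` a generator of the (cyclic)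
torsion group (`NumberField.Units.exist_unique_eq_mul_prod`, torsion `IsCyclic`), so it is `ζ^(a mod ℓ) ∏ fundSystem_i^(n_i mod ℓ)` times an `ℓ`-th power:
`ℓ^(rank + 1)` classes; two vectors `e, e'` in the same class give `∏ g_i^(e_i - e'_i) = y^ℓ`. -/
def S_CLS : Prop := ∀ (F : Type) [Field F] [NumberField F] (N m R : ℕ), 2 ≤ m → R + Units.rank F + 1 ≤ N →
  ∀ g : Fin N → Fˣ,
  (∀ i, ∃ I : (FractionalIdeal (𝓞 F)⁰ F)ˣ, I ^ m = toPrincipalIdeal (𝓞 F) F (g i)) →
  (∀ ℓ : ℕ, ℓ.Prime → ℓ ∣ m → ∀ (e : Fin N → ℤ) (y : Fˣ), ∏ i, g i ^ e i = y ^ ℓ → ∀ i, (ℓ : ℤ) ∣ e i) →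
  HasCl F m R

/-- **4 BASE** (40 min).  `Cl(K)[m]` embeds in `Cl(L)` if `m` is prime to `[L : K]`.

PROOF. Group homomorphism `j : Cl(K) → Cl(L)`, extension of ideals (`ClassGroup.mk0` of `Ideal.map (algebraMap (𝓞 K) (𝓞 L))`; look for
`ClassGroup.map` or use `ClassGroup.mk0_surjective` and define `f` on the given elements only).  If `I 𝓞 L` is principal, `= (α)`, then the
relative norm (`Ideal.relNorm`, `Ideal.relNorm_algebraMap`, `Ideal.relNorm_singleton`; `𝓞 L` is finite over the Dedekind domain `𝓞 K`) gives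
`I^n = (N α)`, `n = [L : K]`; with `I^m` principal and `m, n` coprime `I` is principal.  So `j ∘ f` is injective on the image of `(ℤ/m)^R`. -/
def S_BASE : Prop := ∀ (K : Type) [Field K] [NumberField K] (L : Type) [Field L] [NumberField L] [Algebra K L]
  (m R : ℕ), Nat.Coprime m (Module.finrank K L) → HasCl K m R → HasCl L m R

/-- **5 UNR** (40 min).  Primes which are independent in `K^*/K^{*ℓ}` for all `ℓ`.

PROOF. It is enough that every `q_i` has a prime `𝔮_i` of `K` with `v_𝔮(q_i) = 1` (then `v_𝔮(q_j) = 0` for `j ≠ i`, and `e_i = ℓ v_𝔮(y)`), which holds for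
all primes `q` which are unramified in `K`: all `q` not dividing `discr K` (Mathlib or the pool may have: `q ∤ discr K` implies `e = 1`; another way: all
but finitely many primes, because `K = ℚ(α)`, `α` integral, `f = minpoly`, `q` not dividing `disc f`, Kummer-Dedekind; another way: infinitely many
primes `q` for which there is an embedding `K → ℚ_[q]` - a root of `f` modulo `q` with `q ∤ disc f` and Hensel's lemma - and then use the
valuation of `ℚ_[q]`: `e_i = ℓ v(φ y)`). -/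
def S_UNR : Prop := ∀ (K : Type) [Field K] [NumberField K] (B t : ℕ), ∃ q : Fin t → ℕ,
  Function.Injective q ∧ (∀ i, (q i).Prime ∧ B < q i) ∧
  ∀ ℓ : ℕ, ℓ.Prime → ∀ (e : Fin t → ℤ) (y : K), ∏ i, (q i : K) ^ e i = y ^ ℓ → ∀ i, (ℓ : ℤ) ∣ e i

/-- 2 EIS (helper34) -/
def S_EIS : Prop := ∀ (A : Type) [CommRing A] (q u θ : A) (n : ℕ), 1 ≤ n → θ ^ n = q * u → IsCoprime q u →
  Ideal.span {q, θ} ^ n = Ideal.span {q}

end Pool.Agent.D0H34.KG
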