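import Pool.Agent.D0H34.KG.Eis
import Pool.Agent.D0H15.SK.Basic

/-! Project KG, module DAT: a congruence condition which forces `S_n` and a large class group. -/

set_option autoImplicit false

open Polynomial NumberField nonZeroDivisors

namespace Pool.Agent.D0H34.KG

open Pool.Agent.D0H15.SK

theorem exists_frac {F : Type} [Field F] [NumberField F] (n q : ℕ) (hn : n ≠ 0) (hq : q ≠ 0)
    (P : Ideal (𝓞 F)) (hP : P ^ n = Ideal.span {(q : 𝓞 F)}) (x : Fˣ) (hx : (x : F) = (q : F)) :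
    ∃ I : (FractionalIdeal (𝓞 F)⁰ F)ˣ, I ^ n = toPrincipalIdeal (𝓞 F) F x := by
  have hP0 : P ≠ ⊥ := by
    rintro rfl
    rw [← Ideal.zero_eq_bot, zero_pow hn, Ideal.zero_eq_bot, eq_comm,
      Ideal.span_singleton_eq_bot] at hP
    exact hq (by exact_mod_cast hP)
  have hP1 : (P : FractionalIdeal (𝓞 F)⁰ F) ≠ 0 := FractionalIdeal.coeIdeal_ne_zero.2 hP0
  refine ⟨Units.mk0 _ hP1, ?_⟩
  apply Units.ext
  rw [Units.val_pow_eq_pow_val, Units.val_mk0, coe_toPrincipalIdeal, hx,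
    ← FractionalIdeal.coeIdeal_pow, hP, FractionalIdeal.coeIdeal_span_singleton, map_natCast]

lemma ideals (F : Type) [Field F] [NumberField F] (N n : ℕ) (hn : 1 ≤ n) (q : Fin N → ℕ)
    (hq : ∀ i, (q i).Prime) (hinj : Function.Injective q) (θ w : 𝓞 F)
    (h : θ ^ n = -(((∏ j, q j : ℕ) : 𝓞 F) * (1 + ((∏ j, q j : ℕ) : 𝓞 F) * w))) (i : Fin N)
    (x : Fˣ) (hx : (x : F) = (q i : F)) :
    ∃ I : (FractionalIdeal (𝓞 F)⁰ F)ˣ, I ^ n = toPrincipalIdeal (𝓞 F) F x := by
  classical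
  refine exists_frac n (q i) (by omega) (hq i).ne_zero (Ideal.span {(q i : 𝓞 F), θ}) ?_ x hx
  have hQ : (∏ j, q j) = q i * ∏ j ∈ Finset.univ.erase i, q j :=
    (Finset.mul_prod_erase _ _ (Finset.mem_univ i)).symm
  have hcop : Nat.Coprime (q i) (∏ j ∈ Finset.univ.erase i, q j) := by
    apply Nat.Coprime.prod_right
    intro j hj
    rw [Nat.coprime_primes (hq i) (hq j)]
    intro h1
    exact (Finset.mem_erase.1 hj).1 (hinj h1).symm
  have hcop' : IsCoprime (q i : 𝓞 F) ((∏ j ∈ Finset.univ.erase i, q j : ℕ) : 𝓞 F) := by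
    have h1 : IsCoprime ((q i : ℕ) : ℤ) ((∏ j ∈ Finset.univ.erase i, q j : ℕ) : ℤ) :=
      Nat.isCoprime_iff_coprime.2 hcop
    have h2 := h1.map (Int.castRingHom (𝓞 F))
    simpa using h2
  apply t_EIS (𝓞 F) (q i : 𝓞 F)
    (-(((∏ j ∈ Finset.univ.erase i, q j : ℕ) : 𝓞 F) * (1 + ((∏ j, q j : ℕ) : 𝓞 F) * w))) θ n hn
  · rw [h]
    have h3 : ((∏ j, q j : ℕ) : 𝓞 F) = (q i : 𝓞 F) * ((∏ j ∈ Finset.univ.erase i, q j : ℕ) : 𝓞 F) := by
      rw [← Nat.cast_mul, ← hQ]
    linear_combination (-(1 + ((∏ j, q j : ℕ) : 𝓞 F) * w)) * h3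
  · apply IsCoprime.neg_right
    apply IsCoprime.mul_right hcop'
    refine ⟨-(((∏ j ∈ Finset.univ.erase i, q j : ℕ) : 𝓞 F) * w), 1, ?_⟩
    rw [hQ]
    push_cast
    ring

/-- the field generated by a root -/
lemma field_cl (hROOT : S_ROOT) (hCLS : S_CLS) (hBASE : S_BASE) (K : Type) [Field K] [NumberField K]
    (n m r R N : ℕ) (hn : 4 ≤ n) (hm : Nat.Coprime m n) (hcl : HasCl K m r) (hN : R + n * Module.finrank ℚ K ≤ N)
    (q : Fin N → ℕ) (hq : ∀ i, (q i).Prime) (hinj : Function.Injective q)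
    (hind : ∀ ℓ : ℕ, ℓ.Prime → ∀ (e : Fin N → ℤ) (y : K), ∏ i, (q i : K) ^ e i = y ^ ℓ → ∀ i, (ℓ : ℤ) ∣ e i)
    (a : Fin (n - 1) → 𝓞 K) (ha : ∀ i : Fin (n - 1), ((∏ j, q j : ℕ) : 𝓞 K) ^ 2 ∣ a i -
      (if (i : ℕ) = 0 then ((∏ j, q j : ℕ) : 𝓞 K) else 0))
    (hirr : Irreducible (polK n a)) (θ : AlgebraicClosure K) (hroot : aeval θ (polK n a) = 0)
    (hsym : Sym (IntermediateField.adjoin K {θ})) :
    ∃ h : NumberField (IntermediateField.adjoin K {θ}), @HasCl (IntermediateField.adjoin K {θ}) _ h m r ∧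
      @HasCl (IntermediateField.adjoin K {θ}) _ h n R := by
  have hmp := minpoly_root n (by omega) a θ hirr hroot
  have hθint : IsIntegral K θ := ⟨polK n a, polK_monic n (by omega) a, hroot⟩
  have hfr : Module.finrank K (IntermediateField.adjoin K {θ}) = n := by
    rw [IntermediateField.adjoin.finrank hθint, hmp, polK_natDegree n (by omega)]
  have hfd : FiniteDimensional K (IntermediateField.adjoin K {θ}) :=
    IntermediateField.adjoin.finiteDimensional hθint
  have hfq : FiniteDimensional ℚ (IntermediateField.adjoin K {θ}) :=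
    FiniteDimensional.trans ℚ K _
  have hnf : NumberField (IntermediateField.adjoin K {θ}) := {}
  refine ⟨hnf, ?_, ?_⟩
  · exact hBASE K (IntermediateField.adjoin K {θ}) m r (by rw [hfr]; exact hm) hcl
  obtain ⟨g0, hg0θ⟩ : ∃ g0 : IntermediateField.adjoin K {θ},
      (g0 : AlgebraicClosure K) = θ := ⟨IntermediateField.AdjoinSimple.gen K θ,
        IntermediateField.AdjoinSimple.coe_gen K θ⟩
  have hg0int : IsIntegral ℤ g0 := by
    have h1 := integral_root n (by omega) a θ hroot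
    rw [← hg0θ] at h1
    exact (isIntegral_algHom_iff ((IntermediateField.adjoin K {θ}).val.restrictScalars ℤ)
      Subtype.val_injective).mp h1
  obtain ⟨t, ht⟩ : ∃ t : 𝓞 (IntermediateField.adjoin K {θ}),
      algebraMap (𝓞 (IntermediateField.adjoin K {θ})) (IntermediateField.adjoin K {θ}) t = g0 :=
    ⟨⟨g0, hg0int⟩, rfl⟩
  choose w hw using ha
  have hn0 : 0 < n - 1 := by omega
  -- the equation in the ring of integers
  set Q : ℕ := ∏ j, q j with hQ
  have heq : t ^ n = -((Q : 𝓞 (IntermediateField.adjoin K {θ})) * (1 + (Q : 𝓞 (IntermediateField.adjoin K {θ})) *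
      ∑ i : Fin (n - 1), algebraMap (𝓞 K) (𝓞 (IntermediateField.adjoin K {θ})) (w i) * t ^ (i : ℕ))) := by
    apply FaithfulSMul.algebraMap_injective (𝓞 (IntermediateField.adjoin K {θ})) (IntermediateField.adjoin K {θ})
    apply (algebraMap (IntermediateField.adjoin K {θ}) (AlgebraicClosure K)).injective
    have hre := root_eq n a θ hroot
    have hval : algebraMap (IntermediateField.adjoin K {θ}) (AlgebraicClosure K)
        (algebraMap (𝓞 (IntermediateField.adjoin K {θ})) (IntermediateField.adjoin K {θ}) t) = θ := by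
      rw [ht]; exact hg0θ
    have hwv : ∀ i, algebraMap (IntermediateField.adjoin K {θ}) (AlgebraicClosure K)
        (algebraMap (𝓞 (IntermediateField.adjoin K {θ})) (IntermediateField.adjoin K {θ})
          (algebraMap (𝓞 K) (𝓞 (IntermediateField.adjoin K {θ})) (w i))) =
        algebraMap K (AlgebraicClosure K) (w i : K) := by
      intro i
      rfl
    simp only [map_pow, map_neg, map_mul, map_add, map_one, map_sum, map_natCast, hval, hwv]
    rw [hre]
    have hai : ∀ i : Fin (n - 1), algebraMap K (AlgebraicClosure K) (a i : K) =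
        (if (i : ℕ) = 0 then (Q : AlgebraicClosure K) else 0) +
        (Q : AlgebraicClosure K) ^ 2 * algebraMap K (AlgebraicClosure K) (w i : K) := by
      intro i
      have h1 : a i = (if (i : ℕ) = 0 then (Q : 𝓞 K) else 0) + (Q : 𝓞 K) ^ 2 * w i := by
        linear_combination hw i
      have h2 := congrArg (fun z : 𝓞 K => algebraMap K (AlgebraicClosure K) (z : K)) h1
      rw [h2]
      split_ifs
      · simp
      · simp
    simp only [hai, add_mul]
    rw [Finset.sum_add_distrib]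
    have h3 : ∑ i : Fin (n - 1), (if (i : ℕ) = 0 then (Q : AlgebraicClosure K) else 0) * θ ^ (i : ℕ) =
        (Q : AlgebraicClosure K) := by
      rw [Finset.sum_eq_single (⟨0, hn0⟩ : Fin (n - 1))]
      · simp
      · intro i _ hi
        rw [if_neg, zero_mul]
        intro h
        exact hi (Fin.ext h)
      · intro h
        exact absurd (Finset.mem_univ _) h
    rw [h3, mul_add, mul_one, Finset.mul_sum, Finset.mul_sum, neg_inj]
    congr 1
    refine Finset.sum_congr rfl fun i _ => ?_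
    ring
  have hq0 : ∀ i, ((q i : ℕ) : IntermediateField.adjoin K {θ}) ≠ 0 := fun i => by
    exact_mod_cast (hq i).ne_zero
  have hdeg : Module.finrank ℚ (IntermediateField.adjoin K {θ}) = n * Module.finrank ℚ K := by
    rw [← Module.finrank_mul_finrank ℚ K (IntermediateField.adjoin K {θ}), hfr, mul_comm]
  have hrank : Units.rank (IntermediateField.adjoin K {θ}) + 1 ≤ n * Module.finrank ℚ K := by
    have h8 := InfinitePlace.card_add_two_mul_card_eq_rank (IntermediateField.adjoin K {θ})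
    have h7 : Fintype.card (InfinitePlace (IntermediateField.adjoin K {θ})) =
      InfinitePlace.nrRealPlaces (IntermediateField.adjoin K {θ}) +
      InfinitePlace.nrComplexPlaces (IntermediateField.adjoin K {θ}) :=
        InfinitePlace.card_eq_nrRealPlaces_add_nrComplexPlaces _
    have h9 : 0 < Fintype.card (InfinitePlace (IntermediateField.adjoin K {θ})) := Fintype.card_pos
    unfold Units.rank
    omega
  refine hCLS (IntermediateField.adjoin K {θ}) N n R (by omega) (by omega) (fun i => Units.mk0 _ (hq0 i)) ?_ ?_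
  · intro i
    exact ideals _ N n (by omega) q hq hinj t _ heq i _ rfl
  · intro ℓ hℓ hℓn e y hy
    have hy1 : ∏ i, ((q i : ℕ) : IntermediateField.adjoin K {θ}) ^ e i = (y : IntermediateField.adjoin K {θ}) ^ ℓ := by
      have := congrArg (Units.val) hy
      simpa using this
    have hy2 : algebraMap K (AlgebraicClosure K) (∏ i, (q i : K) ^ e i) =
        ((y : IntermediateField.adjoin K {θ}) : AlgebraicClosure K) ^ ℓ := by
      have h1 := congrArg (algebraMap (IntermediateField.adjoin K {θ}) (AlgebraicClosure K)) hy1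
      rw [map_prod, map_pow] at h1
      have h2 : algebraMap (IntermediateField.adjoin K {θ}) (AlgebraicClosure K)
          (y : IntermediateField.adjoin K {θ}) = ((y : IntermediateField.adjoin K {θ}) : AlgebraicClosure K) := rfl
      rw [← h2, ← h1, map_prod]
      refine Finset.prod_congr rfl fun i _ => ?_
      rw [map_zpow₀, map_zpow₀, map_natCast, map_natCast]
    obtain ⟨z, hz⟩ := hROOT K (IntermediateField.adjoin K {θ}) n ℓ
      ((y : IntermediateField.adjoin K {θ}) : AlgebraicClosure K) hn hfr hsym hℓ (SetLike.coe_mem _) ⟨_, hy2⟩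
    apply hind ℓ hℓ e z
    apply (algebraMap K (AlgebraicClosure K)).injective
    rw [hy2, map_pow, hz]

/-- DAT: a congruence condition which forces the symmetric group and large class groups -/
theorem dat (hSN : S_SN) (hROOT : S_ROOT) (hCLS : S_CLS) (hBASE : S_BASE) (hUNR : S_UNR) (K : Type) [Field K]
    [NumberField K] (n m r R : ℕ) (hn : 4 ≤ n) (hm : Nat.Coprime m n) (hcl : HasCl K m r) :
    ∃ q : ℕ, 1 ≤ q ∧ ∃ a0 : Fin (n - 1) → 𝓞 K, ∀ a : Fin (n - 1) → 𝓞 K, (∀ i, (q : 𝓞 K) ∣ a i - a0 i) →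
      Irreducible (polK n a) ∧ ∀ θ : AlgebraicClosure K, aeval θ (polK n a) = 0 →
      Sym (IntermediateField.adjoin K {θ}) ∧ ∃ h : NumberField (IntermediateField.adjoin K {θ}),
        @HasCl (IntermediateField.adjoin K {θ}) _ h m r ∧ @HasCl (IntermediateField.adjoin K {θ}) _ h n R := by
  obtain ⟨q₁, hq₁, a₁, h₁⟩ := hSN K n hn
  obtain ⟨q, hinj, hq, hind⟩ := hUNR K q₁ (R + n * Module.finrank ℚ K)
  set Q : ℕ := ∏ j, q j with hQ
  have hQ0 : 0 < Q := Finset.prod_pos fun j _ => (hq j).1.pos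
  have hcop0 : Nat.Coprime q₁ Q := by
    apply Nat.Coprime.prod_right
    intro j _
    apply Nat.Coprime.symm
    rw [(hq j).1.coprime_iff_not_dvd]
    intro h
    have := Nat.le_of_dvd hq₁ h
    have := (hq j).2
    omega
  have hcop : IsCoprime (q₁ : ℤ) ((Q ^ 2 : ℕ) : ℤ) := Nat.isCoprime_iff_coprime.2 (hcop0.pow_right 2)
  obtain ⟨v, u, huv⟩ := hcop
  have huv' : (v : 𝓞 K) * (q₁ : 𝓞 K) + (u : 𝓞 K) * ((Q ^ 2 : ℕ) : 𝓞 K) = 1 := by
    exact_mod_cast congrArg (fun t : ℤ => (t : 𝓞 K)) huv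
  obtain ⟨a₂, ha₂⟩ : ∃ a₂ : Fin (n - 1) → 𝓞 K, ∀ i, a₂ i = if (i : ℕ) = 0 then ((Q : ℕ) : 𝓞 K) else 0 :=
    ⟨_, fun _ => rfl⟩
  refine ⟨q₁ * Q ^ 2, Nat.mul_pos hq₁ (pow_pos hQ0 2),
    fun i => (u : 𝓞 K) * ((Q ^ 2 : ℕ) : 𝓞 K) * a₁ i + (v : 𝓞 K) * (q₁ : 𝓞 K) * a₂ i, fun a ha => ?_⟩
  have k1 : ∀ i, (q₁ : 𝓞 K) ∣ a i - a₁ i := by
    intro i
    obtain ⟨w, hw⟩ := ha i
    refine ⟨((Q ^ 2 : ℕ) : 𝓞 K) * w + (v : 𝓞 K) * (a₂ i - a₁ i), ?_⟩
    push_cast at hw huv' ⊢
    linear_combination hw + a₁ i * huv'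
  have k2 : ∀ i, ((Q ^ 2 : ℕ) : 𝓞 K) ∣ a i - a₂ i := by
    intro i
    obtain ⟨w, hw⟩ := ha i
    refine ⟨(q₁ : 𝓞 K) * w + (u : 𝓞 K) * (a₁ i - a₂ i), ?_⟩
    push_cast at hw huv' ⊢
    linear_combination hw + a₂ i * huv'
  obtain ⟨hirr, hs⟩ := h₁ a k1
  refine ⟨hirr, fun θ hθ => ⟨hs θ hθ, ?_⟩⟩
  refine field_cl hROOT hCLS hBASE K n m r R (R + n * Module.finrank ℚ K) hn hm hcl le_rfl q (fun i => (hq i).1) hinj
    hind a (fun i => ?_) hirr θ hθ (hs θ hθ)
  have := k2 i
  rw [ha₂] at this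
  rw [← hQ]
  push_cast at this
  exact this

end Pool.Agent.D0H34.KG
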