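import Pool.Agent.D0H34.KG.Stm

/-! Project KG, module EIS. -/

set_option autoImplicit false

namespace Pool.Agent.D0H34.KG

theorem t_EIS : S_EIS := by
  intro A _ q u θ n hn h hc
  apply le_antisymm
  · -- modulo `q` the ideal is generated by `θ`
    intro x hx
    rw [← Ideal.Quotient.eq_zero_iff_mem]
    have h1 : Ideal.map (Ideal.Quotient.mk (Ideal.span {q})) (Ideal.span {q, θ} ^ n) = ⊥ := by
      rw [Ideal.map_pow, Ideal.map_span, Set.image_insert_eq, Set.image_singleton]
      have hq0 : (Ideal.Quotient.mk (Ideal.span {q})) q = 0 :=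
        Ideal.Quotient.eq_zero_iff_mem.2 (Ideal.mem_span_singleton_self q)
      rw [hq0, Ideal.span_insert_zero, Ideal.span_singleton_pow, ← map_pow, h, map_mul, hq0, zero_mul,
        Ideal.span_singleton_eq_bot.2 rfl]
    have h2 := Ideal.mem_map_of_mem (Ideal.Quotient.mk (Ideal.span {q})) hx
    rw [h1] at h2
    exact h2
  · rw [Ideal.span_singleton_le_iff_mem]
    have h1 : IsCoprime (q ^ (n - 1)) u := hc.pow_left
    obtain ⟨a, b, hab⟩ := h1
    have h2 : q = a * q ^ n + b * θ ^ n := by
      have h3 : q ^ n = q ^ (n - 1) * q := by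
        rw [← pow_succ]
        congr 1
        omega
      rw [h, h3]
      linear_combination (-q) * hab
    have hq : q ^ n ∈ Ideal.span {q, θ} ^ n := Ideal.pow_mem_pow (Ideal.subset_span (by simp)) n
    have hθ : θ ^ n ∈ Ideal.span {q, θ} ^ n := Ideal.pow_mem_pow (Ideal.subset_span (by simp)) n
    rw [h2]
    exact Ideal.add_mem _ (Ideal.mul_mem_left _ _ (by rw [← h2]; exact hq)) (Ideal.mul_mem_left _ _ (by rw [← h2]; exact hθ))

end Pool.Agent.D0H34.KG
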