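import Pool.Agent.D0H5.CGX.Sig
import Pool.Agent.N53.CL.Both
import Pool.Agent.D0H34.KG.Stm

/-! Project KG: base fields with large class groups (from `MP_176ace_nt.UnboundedExcess`, helper5). -/

set_option autoImplicit false

open NumberField

namespace Pool.Agent.D0H34.KG

open Pool.Agent.W289.CG Pool.Agent.N53.CL

/-- For every `κ` and every degree `k ≥ k₀(κ)` there are, for all `m ≥ 2`, number fields of degree `k` whose class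
group contains `(ℤ/m)^(⌊k/2⌋+κ)`. -/
theorem source (κ : ℕ) : ∃ k₀ : ℕ, ∀ k m : ℕ, k₀ ≤ k → 2 ≤ m → ∃ (K : Type) (_ : Field K) (_ : NumberField K),
    Module.finrank ℚ K = k ∧ HasCl K m (k / 2 + κ) := by
  -- totally complex or one real place
  have hsig : ∀ r₁ : ℕ, ∃ n₀ : ℕ, ∀ n r₂ : ℕ, n₀ ≤ n → r₁ + 2 * r₂ = n →
      ∃ (D : Dat n (κ + 2)) (v₁ v₂ : ℝ), 0 < v₁ ∧ v₁ < v₂ ∧ ∀ v, v₁ < v → v < v₂ →
        {X : ℝ | ∏ i, (X - (D.a i : ℝ)) = - v}.ncard = r₁ := by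
    intro r₁
    rcases Nat.eq_zero_or_pos r₁ with h0 | h0
    · subst h0
      obtain ⟨n₀, hn₀⟩ := Pool.Agent.D0H5.CGX.exists_dat (κ + 2) (by omega)
      refine ⟨n₀ + 3, fun n r₂ hn hr => ?_⟩
      obtain ⟨D⟩ := hn₀ n (by omega)
      exact ⟨D, data_ext (by omega) D 0 r₂ hr (by omega)⟩
    · obtain ⟨n₀, hn₀⟩ := Pool.Agent.D0H5.CGX.exists_dat_wide (κ + 2) (by omega) r₁ h0
      refine ⟨n₀, fun n r₂ hn hr => ?_⟩
      exact hn₀ n hn ⟨r₂, by omega⟩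
  obtain ⟨n₀, h₀⟩ := hsig 0
  obtain ⟨n₁, h₁⟩ := hsig 1
  refine ⟨n₀ + n₁ + 3, fun k m hk hm => ?_⟩
  obtain ⟨r₁, r₂, hr, hr2, D, v₁, v₂, g1, g2, g3⟩ : ∃ r₁ r₂ : ℕ, r₁ + 2 * r₂ = k ∧ r₂ = k / 2 ∧
      ∃ (D : Dat k (κ + 2)) (v₁ v₂ : ℝ), 0 < v₁ ∧ v₁ < v₂ ∧ ∀ v, v₁ < v → v < v₂ →
        {X : ℝ | ∏ i, (X - (D.a i : ℝ)) = - v}.ncard = r₁ := by
    rcases Nat.even_or_odd' k with ⟨j, hj | hj⟩
    · exact ⟨0, k / 2, by omega, rfl, h₀ k (k / 2) (by omega) (by omega)⟩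
    · exact ⟨1, k / 2, by omega, rfl, h₁ k (k / 2) (by omega) (by omega)⟩
  obtain ⟨K, hK1, hK2, hfr, hreal, -, -, -, hcl, -⟩ :=
    of_both (by omega) (by omega) D r₁ v₁ v₂ g1 g2 g3 m 0 0 hm ∅ ∅ (by simp) (by simp) (by simp) (by simp)
  have h8 := InfinitePlace.card_add_two_mul_card_eq_rank K
  have h7 := rank_eq K
  refine ⟨K, hK1, hK2, hfr, ?_⟩
  exact hcl (k / 2 + κ) (by omega)

end Pool.Agent.D0H34.KG
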