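import Pool.Agent.D0H34.KG.Dat

/-! Project KG: transport to subfields of an algebraic closure of `ℚ`. -/

set_option autoImplicit false

open Polynomial NumberField

namespace Pool.Agent.D0H34.KG

open Pool.Agent.D0H15.SK

/-- class groups of isomorphic fields -/
theorem hasCl_equiv (hBASE : S_BASE) (F F' : Type) [Field F] [NumberField F] [Field F'] [NumberField F']
    (e : F ≃+* F') (m R : ℕ) (h : HasCl F m R) : HasCl F' m R := by
  let _ : Algebra F F' := e.toRingHom.toAlgebra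
  have h1 : Module.finrank F F' = 1 := by
    rw [finrank_eq_one_iff']
    refine ⟨1, one_ne_zero, fun w => ⟨e.symm w, ?_⟩⟩
    rw [Algebra.smul_def, mul_one]
    exact e.apply_symm_apply w
  exact hBASE F F' m R (by rw [h1]; exact Nat.coprime_one_right m) h

/-- the subfields of degree `d` of the algebraic closure of `ℚ` with `|disc| ≤ X` whose class group contains
`(ℤ/m)^r` and `(ℤ/n)^R` -/
def AbsF (d m r n R : ℕ) (X : ℝ) : Set (IntermediateField ℚ (AlgebraicClosure ℚ)) :=
  {L | Module.finrank ℚ L = d ∧ ∃ h : NumberField L, ((|@NumberField.discr L _ h| : ℤ) : ℝ) ≤ X ∧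
    @HasCl L _ h m r ∧ @HasCl L _ h n R}

/-- the extensions of `K` of degree `n` with Galois group `S_n`, `|disc L| ≤ X` and class groups that contain
`(ℤ/m)^r` and `(ℤ/n)^R` -/
def RelF (K : Type) [Field K] [NumberField K] (n m r R : ℕ) (X : ℝ) :
    Set (IntermediateField K (AlgebraicClosure K)) :=
  {L | Module.finrank K L = n ∧ Sym L ∧ ∃ h : NumberField L, ((|@NumberField.discr L _ h| : ℤ) : ℝ) ≤ X ∧
    @HasCl L _ h m r ∧ @HasCl L _ h n R}

section

variable (K : Type) [Field K] [NumberField K]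

/-- the two algebraic closures -/
theorem exists_equiv : Nonempty (AlgebraicClosure K ≃ₐ[ℚ] AlgebraicClosure ℚ) := by
  have h1 : Algebra.IsAlgebraic ℚ (AlgebraicClosure K) := Algebra.IsAlgebraic.trans ℚ K (AlgebraicClosure K)
  have h2 : IsAlgClosure ℚ (AlgebraicClosure K) := ⟨inferInstance, h1⟩
  have h4 : Algebra.IsAlgebraic ℚ (AlgebraicClosure ℚ) := AlgebraicClosure.isAlgebraic ℚ
  have h3 : IsAlgClosure ℚ (AlgebraicClosure ℚ) := ⟨inferInstance, h4⟩
  exact ⟨IsAlgClosure.equiv ℚ (AlgebraicClosure K) (AlgebraicClosure ℚ)⟩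

variable {K}

/-- the image of an extension of `K` -/
noncomputable def tr (e : AlgebraicClosure K ≃ₐ[ℚ] AlgebraicClosure ℚ)
    (L : IntermediateField K (AlgebraicClosure K)) : IntermediateField ℚ (AlgebraicClosure ℚ) :=
  (L.restrictScalars ℚ).map (e : AlgebraicClosure K →ₐ[ℚ] AlgebraicClosure ℚ)

lemma tr_inj (e : AlgebraicClosure K ≃ₐ[ℚ] AlgebraicClosure ℚ) : Function.Injective (tr e) := by
  intro L L' h
  have h1 := IntermediateField.map_injective (e : AlgebraicClosure K →ₐ[ℚ] AlgebraicClosure ℚ) h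
  exact IntermediateField.restrictScalars_injective ℚ h1

/-- the isomorphism -/
noncomputable def eqv (e : AlgebraicClosure K ≃ₐ[ℚ] AlgebraicClosure ℚ)
    (L : IntermediateField K (AlgebraicClosure K)) : L ≃ₐ[ℚ] tr e L :=
  (IntermediateField.equivMap (L.restrictScalars ℚ) (e : AlgebraicClosure K →ₐ[ℚ] AlgebraicClosure ℚ))

lemma tr_mem (hBASE : S_BASE) (e : AlgebraicClosure K ≃ₐ[ℚ] AlgebraicClosure ℚ) (n m r R : ℕ) (X : ℝ)
    (L : IntermediateField K (AlgebraicClosure K)) (h : L ∈ RelF K n m r R X) :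
    tr e L ∈ AbsF (Module.finrank ℚ K * n) m r n R X := by
  obtain ⟨h1, -, h2, h3, h4, h5⟩ := h
  have h6 : NumberField (tr e L) := NumberField.of_ringEquiv _ _ (eqv e L).toRingEquiv
  refine ⟨?_, h6, ?_, ?_, ?_⟩
  · rw [← (eqv e L).toLinearEquiv.finrank_eq, ← Module.finrank_mul_finrank ℚ K L, h1]
  · rw [← NumberField.discr_eq_discr_of_ringEquiv L (eqv e L).toRingEquiv]
    exact h3
  · exact hasCl_equiv hBASE L (tr e L) (eqv e L).toRingEquiv m r h4
  · exact hasCl_equiv hBASE L (tr e L) (eqv e L).toRingEquiv n R h5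

end

lemma abs_finite (d m r n R : ℕ) (X : ℝ) : (AbsF d m r n R X).Finite := by
  have h := NumberField.finite_of_discr_bdd (A := AlgebraicClosure ℚ) ⌊X⌋₊
  refine (h.image (fun F : {F : IntermediateField ℚ (AlgebraicClosure ℚ) // FiniteDimensional ℚ F} =>
    (F : IntermediateField ℚ (AlgebraicClosure ℚ)))).subset ?_
  rintro L ⟨h1, h2, h3, -⟩
  refine ⟨⟨L, h2.to_finiteDimensional⟩, ?_, rfl⟩
  show |NumberField.discr L| ≤ ((⌊X⌋₊ : ℕ) : ℤ)
  have h4 : (0 : ℝ) ≤ X := le_trans (by exact_mod_cast abs_nonneg _) h3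
  have h5 : ((|NumberField.discr L|).toNat : ℝ) ≤ X := by
    have : (((|NumberField.discr L|).toNat : ℤ)) = |NumberField.discr L| := Int.toNat_of_nonneg (abs_nonneg _)
    have h6 : (((|NumberField.discr L|).toNat : ℤ) : ℝ) = ((|NumberField.discr L| : ℤ) : ℝ) := by rw [this]
    have h7 : ((|NumberField.discr L|).toNat : ℝ) = (((|NumberField.discr L|).toNat : ℤ) : ℝ) := by norm_cast
    rw [h7, h6]
    exact h3
  have h8 := Nat.le_floor h5
  have h9 : (((|NumberField.discr L|).toNat : ℕ) : ℤ) ≤ ((⌊X⌋₊ : ℕ) : ℤ) := by exact_mod_cast h8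
  rwa [Int.toNat_of_nonneg (abs_nonneg _)] at h9

end Pool.Agent.D0H34.KG
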