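import Pool.Agent.D0H64.WS.Main
import Pool.Agent.D0H42.SFK.SN
import Pool.Agent.D0H34.KG.Tr
import Pool.Agent.D0H34.KG.Src
import Pool.Agent.D0H20.KG.Root
import Pool.Agent.D0H58.KG.Base
import Pool.Agent.D0H19.KG.Cls
import Pool.Agent.D0H49.KG.Unr

/-! Project KG: assembly. -/

set_option autoImplicit false

open NumberField

namespace Pool.Agent.D0H34.KG

open Pool.Agent.D0H15.SK

theorem rel : ∃ n₀ : ℕ, 1 ≤ n₀ ∧ ∀ n : ℕ, n₀ ≤ n → ∀ (K : Type) [Field K] [NumberField K] (m r R : ℕ),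
    Nat.Coprime m n → HasCl K m r → ∃ X₀ : ℝ, ∀ X : ℝ, X₀ ≤ X →
    (RelF K n m r R X).Finite ∧
    X ^ ((1 : ℝ) / 2 + 4 / (3 * n) - 16 * (Real.log n) ^ 2 / (n : ℝ) ^ 2) ≤ ((RelF K n m r R X).ncard : ℝ) := by
  obtain ⟨n₀, h⟩ := Pool.Agent.D0H64.WS.expo'
  refine ⟨max n₀ 4, le_trans (by norm_num) (le_max_right _ _), fun n hn K _ _ m r R hm hcl => ?_⟩
  obtain ⟨X₀, hX⟩ := h n (le_trans (le_max_left _ _) hn) K
    (fun L => ∃ h : NumberField L, @HasCl L _ h m r ∧ @HasCl L _ h n R)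
    (dat Pool.Agent.D0H42.SFK.t_SN Pool.Agent.D0H20.KG.t_ROOT Pool.Agent.D0H19.KG.t_CLS
      Pool.Agent.D0H58.KG.t_BASE Pool.Agent.D0H49.KG.t_UNR K n m r R
      (le_trans (le_max_right _ _) hn) hm hcl)
  have e : ∀ X, RelF K n m r R X = Pool.Agent.D0H64.WS.FldP K n
      (fun L => ∃ h : NumberField L, @HasCl L _ h m r ∧ @HasCl L _ h n R) X := by
    intro X
    ext L
    constructor
    · rintro ⟨h1, h2, h3, h4, h5, h6⟩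
      exact ⟨h1, ⟨h3, h4⟩, h2, h3, h5, h6⟩
    · rintro ⟨h1, ⟨h3, h4⟩, h2, h3', h5, h6⟩
      exact ⟨h1, h2, h3, h4, h5, h6⟩
  refine ⟨X₀, fun X hX0 => ?_⟩
  rw [e]
  exact hX X hX0

theorem final : ∃ n₀ : ℕ,
    (∀ n : ℕ, n₀ ≤ n → ∀ (K : Type) [Field K] [NumberField K] (m r R : ℕ),
      Nat.Coprime m n → HasCl K m r → ∃ X₀ : ℝ, ∀ X : ℝ, X₀ ≤ X →
      (RelF K n m r R X).Finite ∧
      X ^ ((1 : ℝ) / 2 + 4 / (3 * n) - 16 * (Real.log n) ^ 2 / (n : ℝ) ^ 2) ≤ ((RelF K n m r R X).ncard : ℝ)) ∧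
    ∀ κ : ℕ, ∃ k₀ : ℕ, ∀ n k m R : ℕ, n₀ ≤ n → k₀ ≤ k → 2 ≤ m → Nat.Coprime m n →
      ∃ X₀ : ℝ, ∀ X : ℝ, X₀ ≤ X →
      (AbsF (k * n) m (k / 2 + κ) n R X).Finite ∧
      X ^ ((1 : ℝ) / 2 + 4 / (3 * n) - 16 * (Real.log n) ^ 2 / (n : ℝ) ^ 2) ≤
        ((AbsF (k * n) m (k / 2 + κ) n R X).ncard : ℝ) := by
  obtain ⟨n₀, hn1, h⟩ := rel
  refine ⟨n₀, h, fun κ => ?_⟩
  obtain ⟨k₀, hk₀⟩ := source κ
  refine ⟨k₀, fun n k m R hn hk hm hmn => ?_⟩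
  obtain ⟨K, hK1, hK2, hfr, hcl⟩ := hk₀ k m hk hm
  obtain ⟨X₀, hX⟩ := h n hn K m (k / 2 + κ) R hmn hcl
  obtain ⟨e⟩ := exists_equiv K
  refine ⟨X₀, fun X hX0 => ⟨abs_finite _ _ _ _ _ _, (hX X hX0).2.trans ?_⟩⟩
  have h1 : (tr e '' RelF K n m (k / 2 + κ) R X).ncard = (RelF K n m (k / 2 + κ) R X).ncard :=
    Set.ncard_image_of_injective _ (tr_inj e)
  rw [← h1]
  have h2 : tr e '' RelF K n m (k / 2 + κ) R X ⊆ AbsF (k * n) m (k / 2 + κ) n R X := by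
    rintro _ ⟨L, hL, rfl⟩
    rw [← hfr]
    have := tr_mem Pool.Agent.D0H58.KG.t_BASE e n m (Module.finrank ℚ K / 2 + κ) R X L (by rw [hfr]; exact hL)
    exact this
  exact_mod_cast Set.ncard_le_ncard h2 (abs_finite _ _ _ _ _ _)

end Pool.Agent.D0H34.KG
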